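import Pool.Agent.H471.GS.Main

set_option autoImplicit false

/-!
# MP_112ba8_nt: moments of all orders at generic shifts, against arbitrary measures

Let `ν` be ANY probability measure on `[0, T]` which gives mass at most `T ^ (-c)` to the intervals of
length one (for instance the uniform measure on any `T ^ c` separated points, such as the ordinates of the
zeros, an arithmetic progression, or a sparse sequence, or the measure `|ζ(1/2 + it)| ^ 4 dt`,
normalised), and let `w` be any measurable weight with `|w| ≤ 1`. For all shifts `α` in the box `[0, U] ^ k`,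
`T ≤ U ≤ T ^ A`, outside a set of measure at most `U ^ k T ^ (-δ)`, the moment of order `2k`

`∫ |ζ(1/2 + i(t + α_1))| ² ⋯ |ζ(1/2 + i(t + α_k))| ² w(t) dν(t)`

is equal, up to `T ^ (-δ)`, to the integral of a product of Dirichlet polynomials of length `T ^ θ`,
for every fixed `θ > 0`. So the moments of all orders at generic shifts are controlled by the integrals of
`(h / m) ^ (it)`, `h m ≤ T ^ (k θ)`, for every such measure.

Proof. The functions are replaced one after the other. For one shift: the smooth approximate functional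
equation, the reduced fractions `h / m` of height at most `U ^ (1 + ε)`, a large sieve over the shift with
amplitudes of bounded variation, and then the quadratic form with the kernel
`∑ (h m)⁻¹ (h / m) ^ (i(t - s))` over the coprime pairs with `h m > T ^ θ`, which is
at most `T ^ (-δ)` for `|t - s| ≥ T ^ ε` by Vinogradov's bound for zeta sums, the hyperbola method and the
Moebius function. The other factors are controlled by the fourth moment. The approximate functional
equation, the bound for zeta sums and the fourth moment are taken from the library of the team.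
-/

namespace Pool.Agent.Results.MP_112ba8_nt.GenericShiftsAllMeasures

open Complex MeasureTheory Set

/-- the coprime pairs of positive integers whose product is at most `Z` -/
def pairs (Z : ℕ) : Finset (ℕ × ℕ) :=
  (Finset.Icc 1 Z ×ˢ Finset.Icc 1 Z).filter fun p => p.1 * p.2 ≤ Z ∧ Nat.Coprime p.1 p.2

/-- the short Dirichlet polynomial: the sum over the coprime pairs `(h, m)` with `h m ≤ Z` of
`(h m) ^ (-1/2) (log (x / (2 π h m)) + 2 γ) (h / m) ^ (ix)` -/
noncomputable def shortSum (Z : ℕ) (x : ℝ) : ℂ :=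
  ∑ p ∈ pairs Z, (((Real.log (x / (2 * Real.pi * (p.1 * p.2))) + 2 * Real.eulerMascheroniConstant) /
    √(p.1 * p.2) : ℝ) : ℂ) * ((p.1 : ℂ) / p.2) ^ (I * (x : ℂ))

open Pool.Agent.Y969.GP (ht lam FR PS ff)
open Pool.Agent.H471.GS (sh ee mem_FR' ht_pos)

lemma lam_swap {p : ℕ × ℕ} (h1 : 1 ≤ p.1) (h2 : 1 ≤ p.2) (x : ℝ) :
    ((p.2 : ℂ) / p.1) ^ (I * (x : ℂ)) = ee x p := by
  have a : (0 : ℝ) < p.1 := by exact_mod_cast h1
  have b : (0 : ℝ) < p.2 := by exact_mod_cast h2
  have e : ((p.2 : ℂ) / p.1) = (((p.2 : ℝ) / p.1 : ℝ) : ℂ) := by push_cast; rfl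
  rw [e, Complex.cpow_def_of_ne_zero (by exact_mod_cast (by positivity : (p.2 : ℝ) / p.1 ≠ 0)),
    ← Complex.ofReal_log (by positivity), Real.log_div b.ne' a.ne']
  unfold ee lam
  congr 1
  push_cast
  ring

lemma shortSum_eq (Z : ℕ) (x : ℝ) : shortSum Z x = sh Z x := by
  unfold shortSum sh
  refine Finset.sum_nbij' Prod.swap Prod.swap ?_ ?_ (fun _ _ => rfl) (fun _ _ => rfl) ?_
  · intro p hp
    unfold pairs at hp
    simp only [Finset.mem_filter, Finset.mem_product, Finset.mem_Icc] at hp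
    rw [mem_FR']
    simp only [Prod.fst_swap, Prod.snd_swap]
    exact ⟨hp.1.2.1, hp.1.1.1, by rw [mul_comm]; exact hp.2.1, hp.2.2.symm⟩
  · intro p hp
    rw [mem_FR'] at hp
    unfold pairs
    simp only [Finset.mem_filter, Finset.mem_product, Finset.mem_Icc, Prod.fst_swap, Prod.snd_swap]
    exact ⟨⟨⟨hp.2.1, (Nat.le_mul_of_pos_left _ hp.1).trans hp.2.2.1⟩, hp.1,
      (Nat.le_mul_of_pos_right _ hp.2.1).trans hp.2.2.1⟩, by rw [mul_comm]; exact hp.2.2.1, hp.2.2.2.symm⟩
  · intro p hp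
    unfold pairs at hp
    simp only [Finset.mem_filter, Finset.mem_product, Finset.mem_Icc] at hp
    rw [← lam_swap (p := p.swap) hp.1.2.1 hp.1.1.1]
    simp only [Prod.fst_swap, Prod.snd_swap]
    congr 2
    unfold ht
    simp only [Prod.fst_swap, Prod.snd_swap]
    rw [mul_comm (p.2 : ℝ) (p.1 : ℝ), div_eq_inv_mul]

/-- **Moments of all orders at generic shifts, against arbitrary measures.** -/
theorem result (k : ℕ) (θ c A : ℝ) (hθ : 0 < θ) (hθ1 : θ < 1 / 4) (hc : 0 < c) (hA : 1 ≤ A) :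
    ∃ δ T₀ : ℝ, 0 < δ ∧ ∀ T U : ℝ, T₀ ≤ T → T ≤ U → U ≤ T ^ A →
      ∀ (ν : Measure ℝ) [IsProbabilityMeasure ν], ν (Icc 0 T)ᶜ = 0 →
      (∀ x : ℝ, ν (Icc x (x + 1)) ≤ ENNReal.ofReal (T ^ (-c))) →
      ∀ w : ℝ → ℂ, Measurable w → (∀ t, ‖w t‖ ≤ 1) →
      volume {α : Fin k → ℝ | (∀ j, 0 ≤ α j ∧ α j ≤ U) ∧ T ^ (-δ) <
        ‖(∫ t, ((∏ j, ‖riemannZeta (1 / 2 + I * ((t + α j : ℝ) : ℂ))‖ ^ 2 : ℝ) : ℂ) * w t ∂ν) -
          ∫ t, (∏ j, shortSum ⌊T ^ θ⌋₊ (t + α j)) * w t ∂ν‖} ≤
      ENNReal.ofReal (U ^ k * T ^ (-δ)) := by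
  obtain ⟨δ, T₀, hδ, hT₀, h⟩ := Pool.Agent.H471.GS.main k θ c A hθ hθ1 hc hA
  refine ⟨δ, T₀, hδ, fun T U hT hTU hUA ν _ hν hνc w hw hw1 => ?_⟩
  have hν' : ∀ᵐ t ∂ν, t ∈ Icc 0 T := hν
  have h1 := h T U hT hTU hUA ν hν' hνc w hw hw1
  have e : ∀ (α : Fin k → ℝ), (∫ t, ((∏ j, ‖riemannZeta (1 / 2 + I * ((t + α j : ℝ) : ℂ))‖ ^ 2 : ℝ) : ℂ) * w t ∂ν) -
          ∫ t, (∏ j, shortSum ⌊T ^ θ⌋₊ (t + α j)) * w t ∂ν =
      (∫ t, (∏ j, (ff (t + α j) : ℂ)) * w t ∂ν) - ∫ t, (∏ j, sh ⌊T ^ θ⌋₊ (t + α j)) * w t ∂ν := by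
    intro α
    simp_rw [shortSum_eq]
    congr 2
    funext t
    unfold ff
    push_cast
    rfl
  simp_rw [e]
  exact h1

end Pool.Agent.Results.MP_112ba8_nt.GenericShiftsAllMeasures
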