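import Pool.Agent.H469.F4.W7
import Pool.Agent.H469.F4.W8
import Pool.Agent.H469.F4.V4

set_option autoImplicit false

/-!
# MP_112ba8_nt. Moments and large deviations of the maxima of zeta over arbitrary compact sets, and dimension

Write `L = log T`. For a compact set `A` of real numbers let `M_A(t)` be the maximum of `|ζ(1/2 + it + ih)|` over `h` in
`A`, and let `N = N(A)` be the largest number of points of `A` with mutual distances at least `1/L`. The set may depend
on `T`. Unconditionally, for `T` large, uniformly in `A`: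

* lower bounds for the moments: for every real `k > 1` the mean of `M_A(t)^(2k)` over `T ≤ t ≤ 2T` is at least
  `c N L^(k²)` for all compact `A` in `[-L^B, L^B]` with `N ≤ L^(k² - ε)`;
* the same for `0 < k ≤ 2` for the sets which are regular of an exponent `d < k²`;
* upper bounds: the mean is at most `C N (1 + P)`, `P` the moment at points, for all `k > 0`, and at most `C N L^(k²)`
  for `0 < k ≤ 2`, for all compact `A` in `[-T/16, T/16]`;
* large deviations: for `v ≥ 1` the proportion of `t` with `M_A(t) > L^v` is at least `min(N, L^(v²)) L^(-v² - η)`, and for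
  `0 < v ≤ 2` at most `C N L^(-v²)`;
* the frozen phase: for `v ≥ 1`, `k > 0` the mean of `M_A(t)^(2k)` is at least `L^(2kv - η)` if `N ≥ L^(v²)`; for
  `0 < k ≤ v ≤ 2` it is at most `C L^(2kv)` if `N ≤ L^(v²)`;
* the dimension law, for every fixed nonempty compact set `A`: if the Hausdorff dimension of `A` is at least `s` (or its
  box dimension is `s` and its Assouad dimension at most `s`), then the mean of `M_A(t)^(2k)`, `0 < k ≤ 2`, is at least
  `L^(f(s) - η)`, with `f(s) = 2k√s` for `k ≤ √s` and `s + k²` for `k > √s`, and the proportion of `t` with `M_A(t) > L^v`,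
  `v < 2`, is at least `L^(-ρ(s) - η)`, with `ρ(s) = 0` for `v ≤ √s` and `v² - s` for `v > √s`; if its upper box
  dimension is at most `d`, they are at most `L^(f(d) + η)` and `L^(-ρ(d) + η)`;
* the Cantor set has the exponents of the dimension `log 2 / log 3`;
* the moments `M_k(T)` of the problem are `O(L^(k²))` if and only if the mean of `M_A(t)^(2k)` is `O(N(A) L^(k²))`
  uniformly over all nonempty compact sets `A` in `[-T/16, T/16]`.
-/

open Filter Topology MeasureTheory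

namespace Pool.Agent.Results.MP_112ba8_nt.MaximaAndDimension

/-- `max_(h ∈ A) |ζ(1/2 + it + ih)|`. -/
noncomputable def setMax (A : Set ℝ) (t : ℝ) : ℝ :=
  ⨆ h : A, ‖riemannZeta (1 / 2 + Complex.I * t + Complex.I * ((h : ℝ) : ℂ))‖

/-- `(1/T) ∫_T^(2T) max_(h ∈ A) |ζ(1/2 + it + ih)|^(2k) dt`. -/
noncomputable def maxMoment (A : Set ℝ) (k T : ℝ) : ℝ := (1 / T) * ∫ t in T..(2 * T), setMax A t ^ (2 * k)

/-- The proportion of `T ≤ t ≤ 2T` with `max_(h ∈ A) |ζ(1/2 + it + ih)| > V`. -/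
noncomputable def proportion (A : Set ℝ) (V T : ℝ) : ℝ :=
  (1 / T) * (volume {t : ℝ | t ∈ Set.Icc T (2 * T) ∧ V < setMax A t}).toReal

/-- `(1/T) ∫_(T/2)^(3T) |ζ(1/2 + it)|^(2k) dt`. -/
noncomputable def pointMoment (k T : ℝ) : ℝ :=
  (1 / T) * ∫ t in (T / 2)..(3 * T), ‖riemannZeta (1 / 2 + (t : ℂ) * Complex.I)‖ ^ (2 * k)

/-- The moments of the problem, `M_k(T) = (1/T) ∫_0^T |ζ(1/2 + it)|^(2k) dt`. -/
noncomputable def moment (k T : ℝ) : ℝ :=
  (1 / T) * ∫ t in (0 : ℝ)..T, ‖riemannZeta (1 / 2 + (t : ℂ) * Complex.I)‖ ^ (2 * k)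

/-- The points of `S` have mutual distances at least `r`. -/
def Separated (r : ℝ) (S : Finset ℝ) : Prop := ∀ x ∈ S, ∀ y ∈ S, x ≠ y → r ≤ |x - y|

/-- The largest number of points of `A` with mutual distances at least `r`. -/
noncomputable def sepNumber (r : ℝ) (A : Set ℝ) : ℕ :=
  sSup {m : ℕ | ∃ S : Finset ℝ, (∀ x ∈ S, x ∈ A) ∧ Separated r S ∧ S.card = m}

/-- At most `D (R/r)^d` points of `A` with mutual distances at least `r` lie within `R` of one of them, `r ≤ R ≤ 1`. -/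
def Regular (d D r : ℝ) (A : Set ℝ) : Prop := ∀ S : Finset ℝ, (∀ x ∈ S, x ∈ A) → Separated r S → ∀ x ∈ S, ∀ R : ℝ, r ≤ R → R ≤ 1 →
  ((S.filter fun y => |y - x| ≤ R).card : ℝ) ≤ D * (R / r) ^ d

/-- The box dimension of `A` is `d`, and its Assouad dimension is at most `d`. -/
def HasDimension (A : Set ℝ) (d : ℝ) : Prop :=
  Tendsto (fun r : ℝ => Real.log (sepNumber r A) / Real.log (1 / r)) (𝓝[>] 0) (𝓝 d) ∧
  ∀ d' : ℝ, d < d' → ∃ D : ℝ, ∀ r : ℝ, 0 < r → r ≤ 1 → Regular d' D r A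

/-- The Hausdorff dimension of `A` is at least `s`, or its box dimension is `s` and its Assouad dimension at most `s`. -/
def DimGe (A : Set ℝ) (s : ℝ) : Prop := ENNReal.ofReal s ≤ dimH A ∨ HasDimension A s

/-- The upper box dimension of `A` is at most `d`. -/
def BoxLe (A : Set ℝ) (d : ℝ) : Prop := ∀ d' : ℝ, d < d' → ∀ᶠ r : ℝ in 𝓝[>] 0, (sepNumber r A : ℝ) ≤ (1 / r) ^ d'

/-- The exponent of the moments in dimension `d`. -/
noncomputable def exponent (d k : ℝ) : ℝ := if k ≤ Real.sqrt d then 2 * k * Real.sqrt d else d + k ^ 2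

/-- The exponent of the large deviations in dimension `d`. -/
noncomputable def rate (d v : ℝ) : ℝ := if v ≤ Real.sqrt d then 0 else v ^ 2 - d

/-- Nonempty compact sets in `[-R, R]`. -/
def CompactIn (R : ℝ) (A : Set ℝ) : Prop := IsCompact A ∧ A.Nonempty ∧ ∀ h ∈ A, |h| ≤ R

lemma setMax_eq (A : Set ℝ) (t : ℝ) : setMax A t = Pool.Agent.H469.F4.MA A t := by
  unfold setMax Pool.Agent.H469.F4.MA
  rw [sSup_image']
  congr 1
  funext h
  show ‖riemannZeta (1 / 2 + Complex.I * t + Complex.I * ((h : ℝ) : ℂ))‖ = ‖riemannZeta (1 / 2 + ((t + (h : ℝ) : ℝ) : ℂ) * Complex.I)‖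
  congr 2
  push_cast
  ring

lemma maxMoment_eq (A : Set ℝ) (k T : ℝ) : maxMoment A k T = (1 / T) * ∫ t in T..(2 * T), Pool.Agent.H469.F4.MA A t ^ (2 * k) := by
  unfold maxMoment
  congr 1
  exact intervalIntegral.integral_congr fun t _ => by simp only [setMax_eq]

lemma pointMoment_eq (k T : ℝ) : pointMoment k T = (1 / T) * ∫ t in (T / 2)..(3 * T), Pool.Agent.H469.F4.fz (2 * k) t := rfl

lemma sepNumber_eq (r : ℝ) (A : Set ℝ) : sepNumber r A = Pool.Agent.H469.F4.nsep r A := rfl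

lemma proportion_pp (A : Set ℝ) (V T : ℝ) : proportion A V T = Pool.Agent.H469.F4.pp (Pool.Agent.H469.F4.MA A) V T := by
  unfold proportion Pool.Agent.H469.F4.pp
  rw [one_div]
  simp only [setMax_eq]

lemma proportion_eq {A : Set ℝ} (hA : IsCompact A) (V : ℝ) {T : ℝ} (hT : 0 < T) :
    proportion A V T = (1 / T) * ∫ t in T..(2 * T), Pool.Agent.H469.F4.above (Pool.Agent.H469.F4.MA A) V t := by
  unfold proportion
  rw [Pool.Agent.H469.F4.above_eq (Pool.Agent.H469.F4.MA_cont hA) V hT.le]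
  simp only [setMax_eq]

lemma le_mean {a I T : ℝ} (hT : 0 < T) (h : T * a ≤ I) : a ≤ 1 / T * I := by
  rw [one_div, le_inv_mul_iff₀ hT]
  exact h

lemma mean_le {a I T : ℝ} (hT : 0 < T) (h : I ≤ T * a) : 1 / T * I ≤ a := by
  rw [one_div, inv_mul_le_iff₀ hT]
  exact h

lemma expS_eq {d k : ℝ} (hd : 0 ≤ d) : Pool.Agent.H469.F4.expS (Real.sqrt d) (2 * k) = exponent d k := by
  unfold Pool.Agent.H469.F4.expS exponent
  rw [Real.sq_sqrt hd]
  by_cases h : k ≤ Real.sqrt d
  · rw [if_pos h, if_pos (by linarith)]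
  · rw [if_neg h, if_neg (by linarith)]
    ring

theorem result :
    -- lower bounds for the moments, all compact sets
    (∀ k ε B : ℝ, 1 < k → 0 < ε → 0 ≤ B → ∃ c : ℝ, 0 < c ∧ ∀ᶠ T : ℝ in atTop, ∀ A : Set ℝ, CompactIn (Real.log T ^ B) A →
      (sepNumber (1 / Real.log T) A : ℝ) ≤ Real.log T ^ (k ^ 2 - ε) →
        c * (sepNumber (1 / Real.log T) A * Real.log T ^ (k ^ 2)) ≤ maxMoment A k T) ∧
    -- lower bounds for the moments, regular compact sets
    (∀ k ε B d D : ℝ, 0 < k → k ≤ 2 → 0 < ε → 0 ≤ B → 0 ≤ d → d < k ^ 2 → 1 ≤ D → ∃ c : ℝ, 0 < c ∧ ∀ᶠ T : ℝ in atTop, ∀ A : Set ℝ,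
      CompactIn (Real.log T ^ B) A → Regular d D (1 / Real.log T) A → (sepNumber (1 / Real.log T) A : ℝ) ≤ Real.log T ^ (k ^ 2 - ε) →
        c * (sepNumber (1 / Real.log T) A * Real.log T ^ (k ^ 2)) ≤ maxMoment A k T) ∧
    -- upper bounds for the moments, all compact sets
    (∀ k : ℝ, 0 < k → ∃ C : ℝ, 0 < C ∧ ∀ᶠ T : ℝ in atTop, ∀ A : Set ℝ, CompactIn (T / 16) A →
      maxMoment A k T ≤ C * (sepNumber (1 / Real.log T) A * (1 + pointMoment k T)) ∧
      (k ≤ 2 → maxMoment A k T ≤ C * (sepNumber (1 / Real.log T) A * Real.log T ^ (k ^ 2)))) ∧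
    -- large deviations, all compact sets
    (∀ v η B : ℝ, 1 ≤ v → 0 < η → 0 ≤ B → ∀ᶠ T : ℝ in atTop, ∀ A : Set ℝ, CompactIn (Real.log T ^ B) A →
      min (sepNumber (1 / Real.log T) A : ℝ) (Real.log T ^ (v ^ 2)) * Real.log T ^ (-(v ^ 2) - η) ≤ proportion A (Real.log T ^ v) T) ∧
    (∀ v : ℝ, 0 < v → v ≤ 2 → ∃ C : ℝ, 0 < C ∧ ∀ᶠ T : ℝ in atTop, ∀ A : Set ℝ, CompactIn (T / 16) A →
      proportion A (Real.log T ^ v) T ≤ C * (sepNumber (1 / Real.log T) A * Real.log T ^ (-(v ^ 2)))) ∧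
    -- the frozen phase, all compact sets
    (∀ k v η B : ℝ, 0 < k → 1 ≤ v → 0 < η → 0 ≤ B → ∀ᶠ T : ℝ in atTop, ∀ A : Set ℝ, CompactIn (Real.log T ^ B) A →
      Real.log T ^ (v ^ 2) ≤ (sepNumber (1 / Real.log T) A : ℝ) → Real.log T ^ (2 * k * v - η) ≤ maxMoment A k T) ∧
    (∀ k v : ℝ, 0 < k → k ≤ v → v ≤ 2 → ∃ C : ℝ, 0 < C ∧ ∀ᶠ T : ℝ in atTop, ∀ A : Set ℝ, CompactIn (T / 16) A →
      (sepNumber (1 / Real.log T) A : ℝ) ≤ Real.log T ^ (v ^ 2) → maxMoment A k T ≤ C * Real.log T ^ (2 * k * v)) ∧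
    -- the dimension law: fixed compact sets, lower bounds
    (∀ (A : Set ℝ) (s : ℝ), IsCompact A → A.Nonempty → 0 ≤ s → DimGe A s →
      (∀ k η : ℝ, 0 < k → k ≤ 2 → 0 < η → ∀ᶠ T : ℝ in atTop, Real.log T ^ (exponent s k - η) ≤ maxMoment A k T) ∧
      (∀ v η : ℝ, v < 2 → 0 < η → ∀ᶠ T : ℝ in atTop, Real.log T ^ (-rate s v - η) ≤ proportion A (Real.log T ^ v) T)) ∧
    -- the dimension law: fixed compact sets, upper bounds
    (∀ (A : Set ℝ) (d : ℝ), IsCompact A → A.Nonempty → 0 ≤ d → d ≤ 1 → BoxLe A d →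
      (∀ k η : ℝ, 0 < k → k ≤ 2 → 0 < η → ∀ᶠ T : ℝ in atTop, maxMoment A k T ≤ Real.log T ^ (exponent d k + η)) ∧
      (∀ v η : ℝ, v < 2 → 0 < η → ∀ᶠ T : ℝ in atTop, proportion A (Real.log T ^ v) T ≤ Real.log T ^ (-rate d v + η))) ∧
    -- the Cantor set
    (HasDimension cantorSet (Real.log 2 / Real.log 3) ∧ BoxLe cantorSet (Real.log 2 / Real.log 3)) ∧
    -- the moments of the problem
    (∀ k : ℝ, 0 < k →
      ((∃ C : ℝ, ∀ᶠ T : ℝ in atTop, moment k T ≤ C * Real.log T ^ (k ^ 2)) ↔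
        ∃ C : ℝ, ∀ᶠ T : ℝ in atTop, ∀ A : Set ℝ, CompactIn (T / 16) A →
          maxMoment A k T ≤ C * (sepNumber (1 / Real.log T) A * Real.log T ^ (k ^ 2)))) := by
  have sq4 : ∀ k : ℝ, (2 * k) ^ 2 / 4 = k ^ 2 := fun k => by ring
  refine ⟨?_, ?_, ?_, ?_, ?_, ?_, ?_, ?_, ?_, ?_, ?_⟩
  · intro k ε B hk hε hB
    obtain ⟨c, hc, h1⟩ := Pool.Agent.H469.F4.lower_nsep (β := 2 * k) (by linarith) hB hε
    refine ⟨c, hc, ?_⟩
    filter_upwards [h1, eventually_gt_atTop (0 : ℝ)] with T h1 hT A hA hN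
    rw [sq4] at h1
    rw [maxMoment_eq]
    apply le_mean hT
    calc _ = c * T * (sepNumber (1 / Real.log T) A * Real.log T ^ (k ^ 2)) := by ring
      _ ≤ _ := h1 A hA.1 hA.2.2 hN
  · intro k ε B d D hk hk2 hε hB hd0 hd hD
    obtain ⟨c, C, hc, hC, h1⟩ := Pool.Agent.H469.F4.set_order (β := 2 * k) (ε := ε) (d := d) (D := D) (B := B) (by linarith) (by linarith) hd0
      (by rw [sq4]; exact hd) hD hB hε
    refine ⟨c, hc, ?_⟩
    filter_upwards [h1, eventually_gt_atTop (0 : ℝ)] with T h1 hT A hA hR hN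
    rw [sq4] at h1
    rw [maxMoment_eq]
    apply le_mean hT
    calc _ = c * T * (sepNumber (1 / Real.log T) A * Real.log T ^ (k ^ 2)) := by ring
      _ ≤ _ := (h1 A hA.1 hA.2.1 hA.2.2).2 hR hN
  · intro k hk
    obtain ⟨C₁, hC₁, h1⟩ := Pool.Agent.H469.F4.upper_nsepG (β := 2 * k) (by linarith)
    have hcases : ∃ C₂ : ℝ, 0 < C₂ ∧ ∀ᶠ T : ℝ in atTop, ∀ A : Set ℝ, CompactIn (T / 16) A →
        (k ≤ 2 → ∫ t in T..(2 * T), Pool.Agent.H469.F4.MA A t ^ (2 * k) ≤ C₂ * T * (sepNumber (1 / Real.log T) A * Real.log T ^ (k ^ 2))) := by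
      by_cases hk2 : k ≤ 2
      · obtain ⟨C₂, hC₂, h2⟩ := Pool.Agent.H469.F4.upper_nsep (β := 2 * k) (by linarith) (by linarith)
        refine ⟨C₂, hC₂, ?_⟩
        filter_upwards [h2] with T h2 A hA _
        rw [sq4] at h2
        exact h2 A hA.1 hA.2.1 hA.2.2
      · exact ⟨1, one_pos, Filter.Eventually.of_forall fun T A _ h => absurd h hk2⟩
    obtain ⟨C₂, hC₂, h2⟩ := hcases
    refine ⟨C₁ + C₂, by positivity, ?_⟩
    filter_upwards [h1, h2, eventually_ge_atTop (3 : ℝ)] with T h1 h2 hT3 A hA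
    have hT : 0 < T := by linarith
    have hL : 0 ≤ Real.log T := Real.log_nonneg (by linarith)
    have hN0 : (0 : ℝ) ≤ sepNumber (1 / Real.log T) A := Nat.cast_nonneg _
    have hP0 : 0 ≤ pointMoment k T := by
      rw [pointMoment_eq]
      apply mul_nonneg (by positivity)
      exact intervalIntegral.integral_nonneg (by linarith) fun t _ => Pool.Agent.H469.F4.fz_nonneg _ _
    have hLk : 0 ≤ Real.log T ^ (k ^ 2) := Real.rpow_nonneg hL _
    constructor
    · have h3 := h1 A hA.1 hA.2.1 hA.2.2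
      have h4 : maxMoment A k T ≤ C₁ * (sepNumber (1 / Real.log T) A * (1 + pointMoment k T)) := by
        rw [maxMoment_eq, pointMoment_eq]
        have e1 : C₁ * ((sepNumber (1 / Real.log T) A : ℝ) * (1 + 1 / T * ∫ t in (T / 2)..(3 * T), Pool.Agent.H469.F4.fz (2 * k) t)) =
            1 / T * (C₁ * (sepNumber (1 / Real.log T) A * (T + ∫ t in (T / 2)..(3 * T), Pool.Agent.H469.F4.fz (2 * k) t))) := by
          field_simp
        rw [e1]
        exact mul_le_mul_of_nonneg_left h3 (by positivity)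
      refine h4.trans (mul_le_mul_of_nonneg_right (by linarith) (by positivity))
    · intro hk2
      have h3 := h2 A hA hk2
      have h4 : maxMoment A k T ≤ C₂ * (sepNumber (1 / Real.log T) A * Real.log T ^ (k ^ 2)) := by
        rw [maxMoment_eq]
        have e1 : C₂ * ((sepNumber (1 / Real.log T) A : ℝ) * Real.log T ^ (k ^ 2)) =
            1 / T * (C₂ * T * (sepNumber (1 / Real.log T) A * Real.log T ^ (k ^ 2))) := by
          field_simp
        rw [e1]
        exact mul_le_mul_of_nonneg_left h3 (by positivity)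
      refine h4.trans (mul_le_mul_of_nonneg_right (by linarith) (by positivity))
  · intro v η B hv hη hB
    filter_upwards [Pool.Agent.H469.F4.ldS hv hη hB, eventually_gt_atTop (0 : ℝ)] with T h hT A hA
    rw [proportion_eq hA.1 _ hT]
    exact le_mean hT (h A hA.1 hA.2.2)
  · intro v hv0 hv2
    obtain ⟨C, hC, h⟩ := Pool.Agent.H469.F4.ldS_up hv0 hv2
    refine ⟨C, hC, ?_⟩
    filter_upwards [h, eventually_gt_atTop (0 : ℝ)] with T h hT A hA
    rw [proportion_eq hA.1 _ hT]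
    apply mean_le hT
    calc _ ≤ C * T * (sepNumber (1 / Real.log T) A * Real.log T ^ (-(v ^ 2))) := h A hA.1 hA.2.1 hA.2.2
      _ = _ := by ring
  · intro k v η B hk hv hη hB
    filter_upwards [Pool.Agent.H469.F4.frozS_low (β := 2 * k) (by linarith) hv hη hB, eventually_gt_atTop (0 : ℝ)] with T h hT A hA hN
    rw [maxMoment_eq]
    exact le_mean hT (h A hA.1 hA.2.2 hN)
  · intro k v hk hkv hv2
    obtain ⟨C, hC, h⟩ := Pool.Agent.H469.F4.frozS_up (β := 2 * k) (by linarith) (by linarith : 2 * k ≤ 2 * v) hv2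
    refine ⟨C, hC, ?_⟩
    filter_upwards [h, eventually_gt_atTop (0 : ℝ)] with T h hT A hA hN
    rw [maxMoment_eq]
    apply mean_le hT
    calc _ ≤ C * T * Real.log T ^ (2 * k * v) := h A hA.1 hA.2.1 hA.2.2 hN
      _ = _ := by ring
  · intro A s hA hne hs0 hd
    have hss : Real.sqrt s ^ 2 = s := Real.sq_sqrt hs0
    rcases hd with hd | hd
    · have hs1 : s ≤ 1 := by
        have h1 : ENNReal.ofReal s ≤ 1 := hd.trans ((dimH_mono (Set.subset_univ A)).trans_eq Real.dimH_univ)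
        exact ENNReal.ofReal_le_one.1 h1
      constructor
      · intro k η hk hk2 hη
        filter_upwards [(Pool.Agent.H469.F4.haus_low hA hne hs0 hs1 hd hη).1 (2 * k) (by linarith) (by linarith)] with T h1
        rw [expS_eq hs0] at h1
        unfold Pool.Agent.H469.F4.mm at h1
        rw [maxMoment_eq, one_div]
        exact h1
      · intro v η hv hη
        filter_upwards [(Pool.Agent.H469.F4.haus_low hA hne hs0 hs1 hd hη).2 v hv] with T h1
        rw [proportion_pp]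
        exact h1
    · have hbox : Pool.Agent.H469.F4.BoxDim A s := hd.1
      have has : Pool.Agent.H469.F4.AssouadLe A s := hd.2
      constructor
      · intro k η hk hk2 hη
        have h1 := Pool.Agent.H469.F4.set_mom hA hne hbox has (β := 2 * k) (by linarith) (by linarith) η hη
        filter_upwards [h1] with T h1
        rw [expS_eq hs0] at h1
        unfold Pool.Agent.H469.F4.mm at h1
        rw [maxMoment_eq, one_div]
        exact h1.1
      · intro v η hv hη
        have h1 := Pool.Agent.H469.F4.pp_all (Pool.Agent.H469.F4.MA_cont hA) (Pool.Agent.H469.F4.MA_nonneg A) (Real.sqrt_nonneg s)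
          (Real.sqrt_le_one.2 (Pool.Agent.H469.F4.dim_le_one hA hne hbox)) (fun _ hb hb4 => Pool.Agent.H469.F4.set_BdX hA hne hbox has hb hb4) hv hη
        rw [hss] at h1
        filter_upwards [h1] with T h1
        rw [proportion_pp]
        exact h1.1
  · intro A d hA hne hd0 hd1 hd
    have hd' : Pool.Agent.H469.F4.UBoxLe A d := hd
    constructor
    · intro k η hk hk2 hη
      filter_upwards [(Pool.Agent.H469.F4.box_up hA hne hd0 hd1 hd' hη).1 (2 * k) (by linarith) (by linarith)] with T h1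
      rw [expS_eq hd0] at h1
      unfold Pool.Agent.H469.F4.mm at h1
      rw [maxMoment_eq, one_div]
      exact h1
    · intro v η hv hη
      filter_upwards [(Pool.Agent.H469.F4.box_up hA hne hd0 hd1 hd' hη).2 v hv] with T h1
      rw [proportion_pp]
      exact h1
  · exact ⟨⟨Pool.Agent.H469.F4.cantor_box, Pool.Agent.H469.F4.cantor_Assouad⟩,
      Pool.Agent.H469.F4.BoxDim.ubox isCompact_cantorSet ⟨0, zero_mem_cantorSet⟩ Pool.Agent.H469.F4.cantor_box⟩
  · intro k hk
    simp only [maxMoment_eq]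
    have h1 := Pool.Agent.H469.F4.set_equiv (β := 2 * k) (a := k ^ 2) (by linarith) (sq_nonneg k)
    constructor
    · intro h
      obtain ⟨C, hC⟩ := h1.1 h
      refine ⟨C, ?_⟩
      filter_upwards [hC] with T hC A hA
      exact hC A hA.1 hA.2.1 hA.2.2
    · rintro ⟨C, hC⟩
      apply h1.2
      refine ⟨C, ?_⟩
      filter_upwards [hC] with T hC A hA hne hAT
      exact hC A ⟨hA, hne, hAT⟩

end Pool.Agent.Results.MP_112ba8_nt.MaximaAndDimension
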