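import Pool.Agent.H510.MB.Mh

set_option autoImplicit false

/-!
# MP_112ba8_nt: the moments of zeta in the universality classes

No hypothesis is made. Let `K` be a compact set in the strip `1/2 < Re s < 1`. A class of heights is given by a set `A` of functions and a
number `η`: it consists of the `t` such that `ζ(s + it)` is on `K` closer than `η` to a member of `A`.

We show that all moments of zeta on the critical line have in every class of positive density at least the conjectured order `T (log T) ^ (k²)`,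
for all real `k` of both signs, uniformly in the class and in `k`, and that this order comes already from the points within `r / log T` of
the simple zeros on the critical line which are isolated at the scale `1 / log T`; and that the moments of `ζ'` over these zeros have in every
class at least the order `T (log T) ^ ((k + 1)²)`. So for `0 ≤ k ≤ 2` every class carries, near the isolated simple zeros, a positive proportion
of the `2k`-th moment, with a bound uniform in `k`. For `0 ≤ k < 2` the Riemann hypothesis holds if and only if the moment has this order over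
the heights at which zeta approximates itself.
-/

namespace Pool.Agent.Results.MP_112ba8_nt.MomentsInUniversalityClasses

open Filter Topology MeasureTheory Complex
open scoped ENNReal

noncomputable section

/-- the nontrivial zeros of zeta with ordinate in `(T, 2T]` -/
def zeros (T : ℝ) : Set ℂ := {s : ℂ | riemannZeta s = 0 ∧ 0 < s.re ∧ s.re < 1 ∧ T < s.im ∧ s.im ≤ 2 * T}

/-- those on the critical line -/
def critical (T : ℝ) : Set ℂ := {s ∈ zeros T | s.re = 1 / 2}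

/-- the simple zeros on the critical line with `P γ` all of whose distances from the other nontrivial zeros are at least `d / log T` -/
def isolated (d T : ℝ) (P : ℝ → Prop) : Set ℂ :=
  {s ∈ zeros T | s.re = 1 / 2 ∧ deriv riemannZeta s ≠ 0 ∧ P s.im ∧
    ∀ ρ : ℂ, riemannZeta ρ = 0 → 0 < ρ.re → ρ.re < 1 → ρ ≠ s → d / Real.log T ≤ ‖ρ - s‖}

/-- the heights in `[T, 2T]` with the property `P` within `r / log T` of such a zero (with any ordinate in `(T, 2T]`) -/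
def near (d r T : ℝ) (P : ℝ → Prop) : Set ℝ :=
  {t : ℝ | T ≤ t ∧ t ≤ 2 * T ∧ P t ∧ ∃ s ∈ isolated d T (fun _ => True), |t - s.im| ≤ r / Real.log T}

/-- the moment of order `2k` of zeta on the critical line over the heights in `E`, possibly infinite for negative `k` -/
def M (k : ℝ) (E : Set ℝ) : ℝ≥0∞ := ∫⁻ t in E, ENNReal.ofReal (‖riemannZeta (1 / 2 + t * I)‖ ^ (2 * k))

/-- the moment of order `2k` of the derivative of zeta over a set of zeros -/
def D (k : ℝ) (Z : Set ℂ) : ℝ := ∑ᶠ s ∈ Z, ‖deriv riemannZeta s‖ ^ (2 * k)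

/-- the height `t` belongs to the class of `A` and `η`: on `K` the shift `ζ(s + it)` is closer than `η` to a member of `A` -/
def Near (K : Set ℂ) (A : Set (ℂ → ℂ)) (η t : ℝ) : Prop := ∃ f ∈ A, ∃ r < η, ∀ z ∈ K, ‖riemannZeta (z + t * I) - f z‖ ≤ r

/-- the measure of the heights `t` in `(T, 2T]` with the property `P` -/
def Ms (T : ℝ) (P : ℝ → Prop) : ℝ := (volume {t : ℝ | t ∈ Set.Ioc T (2 * T) ∧ P t}).toReal

lemma zeros_eq (T : ℝ) : zeros T = H370.zset riemannZeta T (2 * T) := by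
  ext s
  simp only [zeros, H370.zset, Set.mem_ofPred_eq]
  tauto

theorem zeros_finite (T : ℝ) (h : 0 < T) : (zeros T).Finite := by
  rw [zeros_eq]
  exact H370.zset_finite' H370.good_zeta T (2 * T) h

theorem D_mono {k : ℝ} {Z Z' : Set ℂ} (h : Z ⊆ Z') (hf : Z'.Finite) : D k Z ≤ D k Z' := by
  unfold D
  rw [finsum_mem_eq_finite_toFinset_sum _ (hf.subset h), finsum_mem_eq_finite_toFinset_sum _ hf]
  apply Finset.sum_le_sum_of_subset_of_nonneg
  · intro s hs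
    rw [Set.Finite.mem_toFinset] at hs ⊢
    exact h hs
  · intro _ _ _
    positivity

theorem M_mono {k : ℝ} {E E' : Set ℝ} (h : E ⊆ E') : M k E ≤ M k E' := lintegral_mono_set h

theorem isolated_mono (d T : ℝ) {P Q : ℝ → Prop} (h : ∀ t, P t → Q t) : isolated d T P ⊆ isolated d T Q :=
  fun _ hs => ⟨hs.1, hs.2.1, hs.2.2.1, h _ hs.2.2.2.1, hs.2.2.2.2⟩

theorem near_mono (d r T : ℝ) {P Q : ℝ → Prop} (h : ∀ t, P t → Q t) : near d r T P ⊆ near d r T Q :=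
  fun _ ht => ⟨ht.1, ht.2.1, h _ ht.2.2.1, ht.2.2.2⟩

theorem isolated_finite (d T : ℝ) (h : 0 < T) (P : ℝ → Prop) : (isolated d T P).Finite := (zeros_finite T h).subset fun _ hs => hs.1

lemma mem_isolated (d : ℝ) (T : ℝ) (P : ℝ → Prop) (h : 16 ≤ T) (hd : d ≤ 1) (s : ℂ) :
    s ∈ isolated d T P ↔ s ∈ Pool.Agent.Q97.UM.ZI d T ∧ P s.im := by
  rw [Pool.Agent.Q97.UM.mem_ZI_iff h hd]
  constructor
  · rintro ⟨⟨h1, h2, h3, h4, h5⟩, h6, h7, h8, h9⟩
    exact ⟨⟨h6, h4, h5, h1, h7, h9⟩, h8⟩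
  · rintro ⟨⟨h6, h4, h5, h1, h7, h9⟩, h8⟩
    exact ⟨⟨h1, by rw [h6]; norm_num, by rw [h6]; norm_num, h4, h5⟩, h6, h7, h8, h9⟩

open Classical in
lemma isolated_eq (d : ℝ) (T : ℝ) (P : ℝ → Prop) (h : 16 ≤ T) (hd : d ≤ 1) :
    isolated d T P = (((Pool.Agent.Q97.UM.ZI d T).filter (fun s => P s.im) : Finset ℂ) : Set ℂ) := by
  ext s
  rw [Finset.mem_coe, Finset.mem_filter, mem_isolated d T P h hd]

open Classical in
lemma D_eq (k d : ℝ) (T : ℝ) (P : ℝ → Prop) (h : 16 ≤ T) (hd : d ≤ 1) :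
    D k (isolated d T P) = ∑ s ∈ (Pool.Agent.Q97.UM.ZI d T).filter (fun s => P s.im), ‖deriv riemannZeta s‖ ^ (2 * k) := by
  unfold D
  rw [isolated_eq d T P h hd, finsum_mem_coe_finset]

lemma near_eq (d r : ℝ) (T : ℝ) (P : ℝ → Prop) (h : 16 ≤ T) (hd : d ≤ 1) : near d r T P = {t | P t} ∩ H510.MB.NS d r T := by
  ext t
  unfold H510.MB.NS
  simp only [near, Set.mem_ofPred_eq, Set.mem_inter_iff, Set.mem_Icc, Set.mem_iUnion₂]
  constructor
  · rintro ⟨h1, h2, h3, s, hs, h4⟩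
    rw [mem_isolated d T _ h hd] at hs
    rw [abs_le] at h4
    exact ⟨h3, ⟨h1, h2⟩, s, hs.1, by linarith [h4.1], by linarith [h4.2]⟩
  · rintro ⟨h3, ⟨h1, h2⟩, s, hs, h4, h5⟩
    refine ⟨h1, h2, h3, s, ?_, ?_⟩
    · rw [mem_isolated d T _ h hd]
      exact ⟨hs, trivial⟩
    · rw [abs_le]
      constructor <;> linarith

open Classical in
lemma critical_eq (T : ℝ) (hT : 1 ≤ T) : critical T = (((H370.Zf riemannZeta T (2 * T)).filter (fun s => s.re = 1 / 2) : Finset ℂ) : Set ℂ) := by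
  ext s
  simp only [Finset.coe_filter, Set.mem_ofPred_eq, critical, zeros, H370.mem_Zf H370.good_zeta hT, H370.zset]
  tauto

theorem M_Icc (k T : ℝ) (hk : 0 ≤ k) (hT : 0 ≤ T) :
    M k (Set.Icc T (2 * T)) = ENNReal.ofReal (∫ t in T..(2 * T), ‖riemannZeta (1 / 2 + t * I)‖ ^ (2 * k)) := by
  have hc : Continuous fun t : ℝ => ‖riemannZeta (1 / 2 + t * I)‖ ^ (2 * k) :=
    (H510.EX.zt_cont.norm).rpow_const fun _ => Or.inr (by positivity)
  unfold M
  rw [intervalIntegral.integral_of_le (by linarith), ← integral_Icc_eq_integral_Ioc,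
    ofReal_integral_eq_lintegral_ofReal hc.continuousOn.integrableOn_Icc (Filter.Eventually.of_forall fun t => by positivity)]

/-- lower bounds in all classes -/
def Lower (d : ℝ) : Prop := ∀ K : Set ℂ, IsCompact K → (∀ z ∈ K, 1 / 2 < z.re ∧ z.re < 1) → ∀ κ : ℝ, 0 < κ → ∀ ε : ℝ, 0 < ε →
  ∀ R : ℝ, ∀ r : ℝ, 0 < r → ∃ c T₀ : ℝ, 0 < c ∧ ∀ T : ℝ, T₀ ≤ T → ∀ (A : Set (ℂ → ℂ)) (η : ℝ), ε * T ≤ Ms T (Near K A η) →
    ∀ k : ℝ, |k| ≤ R →
      ENNReal.ofReal (c * T * Real.log T ^ (k ^ 2)) ≤ M k (near d r T (Near K A (η + κ))) ∧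
      c * T * Real.log T ^ ((k + 1) ^ 2) ≤ D k (isolated d T (Near K A (η + κ)))

theorem lower : ∃ d : ℝ, 0 < d ∧ d ≤ 1 ∧ Lower d := by
  obtain ⟨d, hd, hd1, h⟩ := H510.MB.cls
  refine ⟨d, hd, hd1, ?_⟩
  intro K hK hKs κ hκ ε hε R r hr
  obtain ⟨c, hc, h1⟩ := h K hK hKs κ hκ ε hε (max R 1) (le_max_right _ _) r hr
  obtain ⟨T₀, hT₀⟩ := eventually_atTop.1 (h1.and (eventually_ge_atTop (16 : ℝ)))
  refine ⟨c, T₀, hc, fun T hT A η hM k hk => ?_⟩
  obtain ⟨h2, hT16⟩ := hT₀ T hT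
  obtain ⟨h3, h4⟩ := h2 A η hM k (hk.trans (le_max_left _ _))
  rw [near_eq d r T _ hT16 hd1, D_eq k d T _ hT16 hd1]
  exact ⟨h4, h3⟩

/-- positive proportions of the moments of order up to four in all classes -/
theorem shares {d : ℝ} (hL : Lower d) (K : Set ℂ) (hK : IsCompact K)
    (hKs : ∀ z ∈ K, 1 / 2 < z.re ∧ z.re < 1) (κ : ℝ) (hκ : 0 < κ) (ε : ℝ) (hε : 0 < ε) (r : ℝ) (hr : 0 < r) :
    ∃ p T₀ : ℝ, 0 < p ∧ ∀ T : ℝ, T₀ ≤ T → ∀ (A : Set (ℂ → ℂ)) (η : ℝ), ε * T ≤ Ms T (Near K A η) → ∀ k : ℝ, 0 ≤ k → k ≤ 2 →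
      ENNReal.ofReal p * M k (Set.Icc T (2 * T)) ≤ M k (near d r T (Near K A (η + κ))) := by
  obtain ⟨c, T₀, hc, h⟩ := hL K hK hKs κ hκ ε hε 2 r hr
  obtain ⟨C, hC, hup⟩ := H510.MB.zeta_up
  obtain ⟨T₁, hT₁⟩ := eventually_atTop.1 (hup.and (eventually_ge_atTop (16 : ℝ)))
  refine ⟨c / (C + 1), max T₀ T₁, by positivity, fun T hT A η hM k hk0 hk1 => ?_⟩
  obtain ⟨h1, hT16⟩ := hT₁ T ((le_max_right _ _).trans hT)
  obtain ⟨h2, -⟩ := h T ((le_max_left _ _).trans hT) A η hM k (by rw [abs_of_nonneg hk0]; exact hk1)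
  refine le_trans ?_ h2
  rw [M_Icc k T hk0 (by linarith), ← ENNReal.ofReal_mul (by positivity)]
  apply ENNReal.ofReal_le_ofReal
  have hLT : 0 < Real.log T := Real.log_pos (by linarith)
  calc c / (C + 1) * ∫ t in T..(2 * T), ‖riemannZeta (1 / 2 + t * I)‖ ^ (2 * k)
      ≤ c / (C + 1) * (C * T * Real.log T ^ (k ^ 2)) := mul_le_mul_of_nonneg_left (h1 k hk0 hk1) (by positivity)
    _ ≤ c / (C + 1) * ((C + 1) * T * Real.log T ^ (k ^ 2)) := by
        have : 0 ≤ T * Real.log T ^ (k ^ 2) := by positivity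
        gcongr
        linarith
    _ = c * T * Real.log T ^ (k ^ 2) := by field_simp

/-- positive proportions of the moments of the derivative -/
theorem shares' {d : ℝ} (hL : Lower d) (K : Set ℂ) (hK : IsCompact K)
    (hKs : ∀ z ∈ K, 1 / 2 < z.re ∧ z.re < 1) (κ : ℝ) (hκ : 0 < κ) (ε : ℝ) (hε : 0 < ε) (k : ℝ) (hk0 : 0 < k) (hk1 : k < 1) :
    ∃ p T₀ : ℝ, 0 < p ∧ ∀ T : ℝ, T₀ ≤ T → ∀ (A : Set (ℂ → ℂ)) (η : ℝ), ε * T ≤ Ms T (Near K A η) →
      p * D k (critical T) ≤ D k (isolated d T (Near K A (η + κ))) := by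
  classical
  obtain ⟨c, T₀, hc, h⟩ := hL K hK hKs κ hκ ε hε 1 1 one_pos
  obtain ⟨C, hC, hup⟩ := Pool.Agent.Q97.UM.J_up hk0 hk1
  obtain ⟨T₁, hT₁⟩ := eventually_atTop.1 (hup.and (eventually_ge_atTop (16 : ℝ)))
  refine ⟨c / (C + 1), max T₀ T₁, by positivity, fun T hT A η hM => ?_⟩
  obtain ⟨h1, hT16⟩ := hT₁ T ((le_max_right _ _).trans hT)
  obtain ⟨-, h2⟩ := h T ((le_max_left _ _).trans hT) A η hM k (by rw [abs_of_pos hk0]; exact hk1.le)
  refine le_trans ?_ h2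
  have hLT : 0 < Real.log T := Real.log_pos (by linarith)
  have h3 : D k (critical T) ≤ C * T * Real.log T ^ ((k + 1) ^ 2) := by
    unfold D
    rw [critical_eq T (by linarith), finsum_mem_coe_finset]
    refine le_trans (le_of_eq ?_) h1
    apply Finset.sum_congr _ (fun _ _ => rfl)
    congr
  calc c / (C + 1) * D k (critical T) ≤ c / (C + 1) * (C * T * Real.log T ^ ((k + 1) ^ 2)) :=
        mul_le_mul_of_nonneg_left h3 (by positivity)
    _ ≤ c / (C + 1) * ((C + 1) * T * Real.log T ^ ((k + 1) ^ 2)) := by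
        have : 0 ≤ T * Real.log T ^ ((k + 1) ^ 2) := by positivity
        gcongr
        linarith
    _ = c * T * Real.log T ^ ((k + 1) ^ 2) := by field_simp

/-- the moments over the shifts that approximate a given function -/
theorem univ {d : ℝ} (hL : Lower d) (K : Set ℂ) (hK : IsCompact K)
    (hKs : ∀ z ∈ K, 1 / 2 < z.re ∧ z.re < 1) (hKc : IsConnected Kᶜ) (f : ℂ → ℂ) (hf : ContinuousOn f K)
    (hdf : DifferentiableOn ℂ f (interior K)) (h0 : ∀ z ∈ interior K, f z ≠ 0) (η : ℝ) (hη : 0 < η) (R : ℝ) (r : ℝ) (hr : 0 < r) :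
    ∃ c T₀ : ℝ, 0 < c ∧ ∀ T : ℝ, T₀ ≤ T → ∀ k : ℝ, |k| ≤ R →
      ENNReal.ofReal (c * T * Real.log T ^ (k ^ 2)) ≤ M k (near d r T (fun t => ∀ z ∈ K, ‖riemannZeta (z + t * I) - f z‖ < η)) ∧
      c * T * Real.log T ^ ((k + 1) ^ 2) ≤ D k (isolated d T (fun t => ∀ z ∈ K, ‖riemannZeta (z + t * I) - f z‖ < η)) := by
  obtain ⟨c₀, hc₀, hv⟩ := H510.UZ.voronin K f hK hKs hKc hf hdf h0 (η / 4) (by positivity)
  have hpw := H510.MB.pos_win K hK hKs {f} (η / 4) (η / 4) (by positivity) c₀ hc₀ hv.frequently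
  obtain ⟨c, T₀, hc, h⟩ := hL K hK hKs (η / 2) (by positivity) (c₀ / 4) (by positivity) R r hr
  obtain ⟨T₁, hT₁⟩ := eventually_atTop.1 (hpw.and (eventually_ge_atTop (16 : ℝ)))
  refine ⟨c, max T₀ T₁, hc, fun T hT k hk => ?_⟩
  obtain ⟨h1, hT16⟩ := hT₁ T ((le_max_right _ _).trans hT)
  rw [show η / 4 + η / 4 = η / 2 by ring] at h1
  obtain ⟨h2, h3⟩ := h T ((le_max_left _ _).trans hT) {f} (η / 2) h1 k hk
  rw [add_halves] at h2 h3
  have hN : ∀ t : ℝ, Near K {f} η t → ∀ z ∈ K, ‖riemannZeta (z + t * I) - f z‖ < η := by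
    rintro t ⟨g, hg, r, hr, h⟩
    rw [Set.mem_singleton_iff] at hg
    subst hg
    exact fun z hz => lt_of_le_of_lt (h z hz) hr
  exact ⟨h2.trans (M_mono (near_mono d r T hN)), h3.trans (D_mono (isolated_mono d T hN) (isolated_finite d T (by linarith) _))⟩

/-- the criterion -/
theorem rh {d : ℝ} (hL : Lower d) (k : ℝ) (hk0 : 0 ≤ k) (hk1 : k < 2) : RiemannHypothesis ↔
    ∀ K : Set ℂ, IsCompact K → (∀ z ∈ K, 1 / 2 < z.re ∧ z.re < 1) → IsConnected Kᶜ → ∀ η : ℝ, 0 < η → ∀ r : ℝ, 0 < r →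
      ∃ c T₀ : ℝ, 0 < c ∧ ∀ T : ℝ, T₀ ≤ T → ENNReal.ofReal (c * T * Real.log T ^ (k ^ 2)) ≤
        M k (near d r T (fun t => ∀ z ∈ K, ‖riemannZeta (z + t * I) - riemannZeta z‖ < η)) := by
  constructor
  · intro h K hK hKs hKc η hη r hr
    have hne : ∀ z ∈ K, z ≠ 1 := by
      rintro z hz rfl
      have := (hKs 1 hz).2
      simp at this
    have hdiff : DifferentiableOn ℂ riemannZeta K := fun z hz => (differentiableAt_riemannZeta (hne z hz)).differentiableWithinAt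
    obtain ⟨c, T₀, hc, h1⟩ := univ hL K hK hKs hKc riemannZeta hdiff.continuousOn (hdiff.mono interior_subset)
      (fun z hz => H510.UZ.rh_iff.1 h z (hKs z (interior_subset hz)).1 (hKs z (interior_subset hz)).2) η hη k r hr
    exact ⟨c, T₀, hc, fun T hT => (h1 T hT k (by rw [abs_of_nonneg hk0])).1⟩
  · intro h
    apply H510.MB.rh_of_moment hk0 hk1
    intro K hK hKs hKc x hx
    obtain ⟨c, T₀, hc, h1⟩ := h K hK hKs hKc (x / 2) (by positivity) 1 one_pos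
    refine ⟨c, hc, Filter.Eventually.frequently ?_⟩
    filter_upwards [eventually_ge_atTop T₀] with T hT
    refine (h1 T hT).trans (M_mono ?_)
    rintro t ⟨h2, h3, h4, -⟩
    exact ⟨⟨h2, h3⟩, riemannZeta, rfl, x / 2, half_lt_self hx, fun z hz => (h4 z hz).le⟩

theorem result : ∃ d : ℝ, 0 < d ∧
    -- lower bounds of the conjectured order for all moments, in all classes at once
    (∀ K : Set ℂ, IsCompact K → (∀ z ∈ K, 1 / 2 < z.re ∧ z.re < 1) → ∀ κ : ℝ, 0 < κ → ∀ ε : ℝ, 0 < ε →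
      ∀ R : ℝ, ∀ r : ℝ, 0 < r → ∃ c T₀ : ℝ, 0 < c ∧ ∀ T : ℝ, T₀ ≤ T → ∀ (A : Set (ℂ → ℂ)) (η : ℝ), ε * T ≤ Ms T (Near K A η) →
        ∀ k : ℝ, |k| ≤ R →
          ENNReal.ofReal (c * T * Real.log T ^ (k ^ 2)) ≤ M k (near d r T (Near K A (η + κ))) ∧
          c * T * Real.log T ^ ((k + 1) ^ 2) ≤ D k (isolated d T (Near K A (η + κ)))) ∧
    -- positive proportions
    (∀ K : Set ℂ, IsCompact K → (∀ z ∈ K, 1 / 2 < z.re ∧ z.re < 1) → ∀ κ : ℝ, 0 < κ → ∀ ε : ℝ, 0 < ε →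
      (∀ r : ℝ, 0 < r → ∃ p T₀ : ℝ, 0 < p ∧ ∀ T : ℝ, T₀ ≤ T → ∀ (A : Set (ℂ → ℂ)) (η : ℝ), ε * T ≤ Ms T (Near K A η) →
        ∀ k : ℝ, 0 ≤ k → k ≤ 2 →
          ENNReal.ofReal p * M k (Set.Icc T (2 * T)) ≤ M k (near d r T (Near K A (η + κ)))) ∧
      (∀ k : ℝ, 0 < k → k < 1 → ∃ p T₀ : ℝ, 0 < p ∧ ∀ T : ℝ, T₀ ≤ T → ∀ (A : Set (ℂ → ℂ)) (η : ℝ), ε * T ≤ Ms T (Near K A η) →
        (critical T).Finite ∧ p * D k (critical T) ≤ D k (isolated d T (Near K A (η + κ))))) ∧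
    -- the moments over the shifts that approximate a given function
    (∀ K : Set ℂ, IsCompact K → (∀ z ∈ K, 1 / 2 < z.re ∧ z.re < 1) → IsConnected Kᶜ → ∀ f : ℂ → ℂ, ContinuousOn f K →
      DifferentiableOn ℂ f (interior K) → (∀ z ∈ interior K, f z ≠ 0) → ∀ η : ℝ, 0 < η → ∀ R : ℝ, ∀ r : ℝ, 0 < r →
      ∃ c T₀ : ℝ, 0 < c ∧ ∀ T : ℝ, T₀ ≤ T → ∀ k : ℝ, |k| ≤ R →
        ENNReal.ofReal (c * T * Real.log T ^ (k ^ 2)) ≤ M k (near d r T (fun t => ∀ z ∈ K, ‖riemannZeta (z + t * I) - f z‖ < η)) ∧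
        c * T * Real.log T ^ ((k + 1) ^ 2) ≤ D k (isolated d T (fun t => ∀ z ∈ K, ‖riemannZeta (z + t * I) - f z‖ < η))) ∧
    -- a criterion for the Riemann hypothesis
    (∀ k : ℝ, 0 ≤ k → k < 2 → (RiemannHypothesis ↔
      ∀ K : Set ℂ, IsCompact K → (∀ z ∈ K, 1 / 2 < z.re ∧ z.re < 1) → IsConnected Kᶜ → ∀ η : ℝ, 0 < η → ∀ r : ℝ, 0 < r →
        ∃ c T₀ : ℝ, 0 < c ∧ ∀ T : ℝ, T₀ ≤ T → ENNReal.ofReal (c * T * Real.log T ^ (k ^ 2)) ≤
          M k (near d r T (fun t => ∀ z ∈ K, ‖riemannZeta (z + t * I) - riemannZeta z‖ < η)))) := by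
  obtain ⟨d, hd, -, hL⟩ := lower
  refine ⟨d, hd, hL, fun K hK hKs κ hκ ε hε => ⟨fun r hr => shares hL K hK hKs κ hκ ε hε r hr, fun k hk0 hk1 => ?_⟩,
    fun K hK hKs hKc f hf hdf h0 η hη R r hr => univ hL K hK hKs hKc f hf hdf h0 η hη R r hr,
    fun k hk0 hk1 => rh hL k hk0 hk1⟩
  obtain ⟨p, T₀, hp, h⟩ := shares' hL K hK hKs κ hκ ε hε k hk0 hk1
  refine ⟨p, max T₀ 1, hp, fun T hT A η hM => ⟨?_, h T ((le_max_left _ _).trans hT) A η hM⟩⟩
  exact (zeros_finite T (by linarith [(le_max_right T₀ 1).trans hT])).subset fun _ hs => hs.1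

end

end Pool.Agent.Results.MP_112ba8_nt.MomentsInUniversalityClasses
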