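import Pool.Agent.H470.Ya11
import Pool.Agent.H470.Za8

set_option autoImplicit false

/-!
# Moments of zeta minus its long partial sums on the critical line

`D N` is the partial sum of length `N` of zeta on the critical line, `Z` is zeta on the critical line.

(1) For every integer `k ≥ 2` there is `c > 0` such that the `2k`-th moment of `D M` over `[0, T]` is
`(c + o(1)) T (log M)^(k²)` for `M → ∞`, `M^k (log T)^2 ≤ T`, and the `2k`-th moment of `Z - D N` over `[T, 2T]` is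
`(c + o(1)) T (log (T / N))^(k²)` for all `N ≤ T / (log T)^4` with `(T / N)^k (log T)^2 ≤ T`.

(2) For every integer `k ≥ 1` the asymptotic formula for the `2k`-th moment of zeta is equivalent to the same formula
for the `2k`-th moment of `D N` over `[T, 2T]`, for any single choice of lengths `N = N(T) = T^(1 - o(1)) ≤ T`.

(3) For `p > 1` the part of zeta beyond its first `N = T^(1 - o(1))` terms is of smaller order in the mean, with a
bound in terms of `log (T / N)`.

(4) For `p > 1` and `√T ≤ N ≤ T` the moments of zeta and of `D N` bound each other up to constants.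

Proof: zeta minus `D N` is, up to a bounded error, the factor of the functional equation times the conjugate of a
partial sum of length `t / (2 π (N + 1/2))` (approximate functional equation with the phase linearised over short
intervals and an iteration which removes the error); the dependence of the length on `t` is removed by a local
frequency projection bounded on `L^p`, with constants that depend on `p` alone, and by the smallness of narrow sums;
the moments of order `2k` of sums of length up to `T^(1/k)` are known by a mean value theorem. The comparison with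
zeta uses the lower bound of the right order for the moments of zeta, which follows from the comparison with short
sums.
-/

open Complex MeasureTheory Set Filter Topology

namespace Pool.Agent.Results.MP_112ba8_nt.ZetaMinusLongSums

open Pool.Agent.H470

/-- Zeta on the critical line. -/
noncomputable def Z (t : ℝ) : ℂ := riemannZeta (1 / 2 + I * (t : ℂ))

/-- The partial sum of length `N` of zeta on the critical line. -/
noncomputable def D (N : ℕ) (t : ℝ) : ℂ := ∑ n ∈ Finset.Icc 1 N, (n : ℂ) ^ (-(1 / 2 + I * (t : ℂ)))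

theorem result :
    -- (1) even orders: short sums, and zeta minus long sums
    (∀ k : ℕ, 2 ≤ k → ∃ c : ℝ, 0 < c ∧
      (∀ ε : ℝ, 0 < ε → ∃ A : ℕ, ∀ M : ℕ, A ≤ M → ∀ T : ℝ, (A : ℝ) ≤ T → (M : ℝ) ^ k * Real.log T ^ 2 ≤ T →
        |1 / T * (∫ t in (0 : ℝ)..T, ‖D M t‖ ^ (2 * k)) / Real.log M ^ (k ^ 2) - c| ≤ ε) ∧
      (∀ ε : ℝ, 0 < ε → ∃ A : ℕ, ∀ T : ℝ, (A : ℝ) ≤ T → ∀ N : ℕ, 1 ≤ N →
        (N : ℝ) * Real.log T ^ 4 ≤ T → (T / N) ^ k * Real.log T ^ 2 ≤ T →
        |1 / T * (∫ t in T..(2 * T), ‖Z t - D N t‖ ^ (2 * k)) / Real.log (T / N) ^ (k ^ 2) - c| ≤ ε)) ∧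
    -- (2) the moments of zeta and of any family of partial sums of length `T^(1 - o(1))`
    (∀ k : ℕ, 1 ≤ k → ∀ N : ℝ → ℕ, (∀ᶠ T in atTop, 1 ≤ N T ∧ (N T : ℝ) ≤ T) →
      Tendsto (fun T : ℝ => Real.log (N T) / Real.log T) atTop (𝓝 1) → ∀ c : ℝ,
        (Tendsto (fun T : ℝ => 1 / T * (∫ t in (0 : ℝ)..T, ‖Z t‖ ^ (2 * k)) / Real.log T ^ (k ^ 2)) atTop (𝓝 c) ↔
          Tendsto (fun T : ℝ => 1 / T * (∫ t in T..(2 * T), ‖D (N T) t‖ ^ (2 * k)) / Real.log T ^ (k ^ 2)) atTop (𝓝 c))) ∧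
    ∀ p : ℝ, 1 < p →
      -- (3) zeta and its partial sums of length `T^(1 - o(1))`
      (∃ C : ℝ, 0 < C ∧ ∃ A : ℕ, ∀ T : ℝ, (A : ℝ) ≤ T → ∀ N : ℕ, 1 ≤ N → (N : ℝ) ≤ T → (T / N) ^ A ≤ T →
        Real.log T ^ (p ^ 2 / 4) * (∫ t in T..(2 * T), ‖Z t - D N t‖ ^ p) ≤
          C * (Real.log (T / N) + Real.log (Real.log T)) ^ (p ^ 2 / 4) * ∫ t in T..(2 * T), ‖Z t‖ ^ p) ∧
      -- (4) comparison up to constants for all lengths
      ∃ C T₀ : ℝ, 0 < C ∧ ∀ T : ℝ, T₀ ≤ T → ∀ a b : ℝ, T ≤ a → b ≤ 2 * T →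
        a + Real.sqrt T * Real.log T ^ 2 ≤ b → ∀ N : ℕ, 1 ≤ N → (N : ℝ) ≤ T →
        (∀ w : ℕ → ℂ,
          ∫ t in a..b, ‖∑ n ∈ Finset.Icc 1 N, w n * (n : ℂ) ^ (-(1 / 2 + I * (t : ℂ)))‖ ^ p ≤
            C * (‖w N‖ + ∑ n ∈ Finset.Ico 1 N, ‖w (n + 1) - w n‖) ^ p *
              ∫ t in (a - Real.sqrt T * Real.log T ^ 2)..(b + Real.sqrt T * Real.log T ^ 2), ‖Z t‖ ^ p) ∧
        (Real.sqrt T ≤ N →
          ∫ t in a..b, ‖Z t‖ ^ p ≤
            C * ∫ t in (a - Real.sqrt T * Real.log T ^ 2)..(b + Real.sqrt T * Real.log T ^ 2), ‖D N t‖ ^ p) := by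
  refine ⟨fun k hk => ?_, ?_, fun p hp1 => ⟨?_, ?_⟩⟩
  · have hk0 : (0 : ℝ) < k := by exact_mod_cast (by omega : 0 < k)
    obtain ⟨c, hc, hsum⟩ := sums_unif (p := 2 * (k : ℝ)) (by positivity)
    have e1 : (2 * (k : ℝ)) ^ 2 / 4 = ((k ^ 2 : ℕ) : ℝ) := by push_cast; ring
    have e2 : 2 * (k : ℝ) = ((2 * k : ℕ) : ℝ) := by push_cast; ring
    refine ⟨c, hc, fun ε hε => ?_, fun ε hε => ?_⟩
    · obtain ⟨A, hA⟩ := sum_k (by omega) hc hsum hε
      refine ⟨A, fun M hM T hT h => ?_⟩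
      have h1 := hA M hM T ⟨hT, h⟩
      rw [e1] at h1
      simp only [e2, Real.rpow_natCast] at h1
      exact h1
    · obtain ⟨A, hA⟩ := long_k hk hc hsum hε
      refine ⟨A, fun T hT N hN h h' => ?_⟩
      have h1 := hA T hT N hN h h'
      rw [e1] at h1
      simp only [e2, Real.rpow_natCast] at h1
      exact h1
  · intro k hk N hN hlog c
    have hk0 : (0 : ℝ) < k := by exact_mod_cast hk
    have e1 : (2 * (k : ℝ)) ^ 2 / 4 = ((k ^ 2 : ℕ) : ℝ) := by push_cast; ring
    have e2 : 2 * (k : ℝ) = ((2 * k : ℕ) : ℝ) := by push_cast; ring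
    have h := iff_all (p := 2 * (k : ℝ)) (by positivity) hN hlog c
    rw [e1] at h
    simp only [e2, Real.rpow_natCast] at h
    have e3 : ∀ T X L : ℝ, 1 / T * X / L = X / (T * L) := fun T X L => by rw [one_div, inv_mul_eq_div, div_div]
    simp only [e3]
    exact h
  · obtain ⟨C, hC, A, _, h⟩ := cmpz hp1
    exact ⟨C, hC, A, fun T hT N hN hNT hY => (h T hT N hN hNT hY).2⟩
  · obtain ⟨C₁, T₁, hC₁, h₁⟩ := le_zeta p hp1
    obtain ⟨C₂, T₂, hC₂, h₂⟩ := zeta_le p hp1
    refine ⟨C₁ + C₂, max (max T₁ T₂) 1, by positivity, ?_⟩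
    intro T hT a b ha hb hab N hN hNT
    have hT1 : T₁ ≤ T := (le_max_left _ _).trans ((le_max_left _ _).trans hT)
    have hT2 : T₂ ≤ T := (le_max_right _ _).trans ((le_max_left _ _).trans hT)
    have hT3 : 1 ≤ T := (le_max_right _ _).trans hT
    have hw0 : 0 ≤ Real.sqrt T * Real.log T ^ 2 := by positivity
    have hab' : a ≤ b := by linarith
    have hab2 : a - Real.sqrt T * Real.log T ^ 2 ≤ b + Real.sqrt T * Real.log T ^ 2 := by linarith
    refine ⟨fun w => ?_, fun hsN => ?_⟩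
    · have hZ0 : 0 ≤ ∫ t in (a - Real.sqrt T * Real.log T ^ 2)..(b + Real.sqrt T * Real.log T ^ 2), ‖Z t‖ ^ p :=
        intervalIntegral.integral_nonneg hab2 fun t _ => Real.rpow_nonneg (norm_nonneg _) _
      have h3 := weight_p hp1 hab' w hN (M := C₁ * ∫ t in (a - win T)..(b + win T), ‖zz t‖ ^ p)
        fun m hm1 hmN => h₁ T hT1 a b ha hb hab m hm1
          ((by exact_mod_cast hmN : (m : ℝ) ≤ N).trans hNT)
      have hTV0 : 0 ≤ (‖w N‖ + ∑ n ∈ Finset.Ico 1 N, ‖w (n + 1) - w n‖) ^ p := by positivity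
      refine h3.trans ?_
      calc TV w N ^ p * (C₁ * ∫ t in (a - win T)..(b + win T), ‖zz t‖ ^ p)
          = C₁ * (‖w N‖ + ∑ n ∈ Finset.Ico 1 N, ‖w (n + 1) - w n‖) ^ p *
              ∫ t in (a - Real.sqrt T * Real.log T ^ 2)..(b + Real.sqrt T * Real.log T ^ 2), ‖Z t‖ ^ p := by
            unfold TV win zz Z; ring
        _ ≤ _ := by
            apply mul_le_mul_of_nonneg_right _ hZ0
            apply mul_le_mul_of_nonneg_right _ hTV0
            linarith
    · have hZ0 : 0 ≤ ∫ t in (a - Real.sqrt T * Real.log T ^ 2)..(b + Real.sqrt T * Real.log T ^ 2), ‖D N t‖ ^ p :=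
        intervalIntegral.integral_nonneg hab2 fun t _ => Real.rpow_nonneg (norm_nonneg _) _
      refine (h₂ T hT2 a b ha hb hab N hsN hNT).trans ?_
      exact mul_le_mul_of_nonneg_right (by linarith) hZ0

end Pool.Agent.Results.MP_112ba8_nt.ZetaMinusLongSums
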